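import Pool.Agent.H6.FB.Stmts

/-!
# Module EXI: existence
-/

set_option autoImplicit false

open Metric Set Filter Topology

namespace Pool.Agent.H6.FB

theorem exi_thm (hSTE : STEStmt) (hROB : ROBStmt) (hSEP : SEPStmt) (hSEQ : SEQStmt) :
    EXIStmt := by
  intro E _ _ _ hdim F hF ε hε
  have := FiniteDimensional.proper ℂ E
  have hnt : Nontrivial E := Module.nontrivial_of_finrank_pos (R := ℂ) (by omega)
  have hne : Nonempty (sphere (0 : E) 1) := by
    obtain ⟨x, hx⟩ := exists_ne (0 : E)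
    refine ⟨⟨(((‖x‖⁻¹ : ℝ) : ℂ)) • x, ?_⟩⟩
    rw [mem_sphere_zero_iff_norm, norm_smul, Complex.norm_real, norm_inv, norm_norm,
      inv_mul_cancel₀ (norm_ne_zero_iff.2 hx)]
  let a : ℕ → sphere (0 : E) 1 := TopologicalSpace.denseSeq (sphere (0 : E) 1)
  have ha : DenseRange a := TopologicalSpace.denseRange_denseSeq _
  let P : ℕ → (E → E) → Prop := fun k f =>
    (∀ x ∈ closedBall (0 : E) 1, ∀ y ∈ closedBall (0 : E) 1, 1 / ((k : ℝ) + 1) ≤ ‖x - y‖ →
      f x ≠ f y) ∧
    ∃ d : ℂ → E, Bad f d ∧ ∀ ζ ∈ closedBall (0 : ℂ) 1,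
      ‖d ζ - f (a (Nat.unpair k).1)‖ < 1 / (((Nat.unpair k).2 : ℝ) + 1)
  obtain ⟨f, hfn, hfF, hP⟩ := hSEQ E P (by
    intro k G hG ε' hε'
    set m : ℝ := 1 / (((Nat.unpair k).2 : ℝ) + 1) with hm
    have hm0 : 0 < m := by positivity
    have hv : ‖((a (Nat.unpair k).1 : sphere (0 : E) 1) : E)‖ = 1 :=
      mem_sphere_zero_iff_norm.1 (a (Nat.unpair k).1).2
    obtain ⟨F', hF', hF'G, d, hd, hdv⟩ := hSTE E hdim G hG _ hv (min ε' (m / 2))
      (lt_min hε' (by linarith))
    obtain ⟨η, hη, hrob⟩ := hROB E F' d hF' hd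
    obtain ⟨c, hc, η', hη', hsep⟩ := hSEP E F' hF' (1 / ((k : ℝ) + 1)) (by positivity)
    refine ⟨F', hF', fun z hz => (hF'G z hz).trans_le (min_le_left _ _),
      min (min η η') (m / 2), lt_min (lt_min hη hη') (by linarith), fun f hf hfF' => ⟨?_, ?_⟩⟩
    · intro x hx y hy hxy heq
      have := hsep f (fun z hz => (hfF' z hz).trans_le
        ((min_le_left _ _).trans (min_le_right _ _))) x hx y hy hxy
      rw [heq, sub_self, norm_zero] at this
      linarith
    · refine ⟨d, hrob f hf (fun z hz => (hfF' z hz).trans_le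
        ((min_le_left _ _).trans (min_le_left _ _))), fun ζ hζ => ?_⟩
      have h1 := (hdv ζ hζ).trans_le (min_le_right _ _)
      have hvK : ((a (Nat.unpair k).1 : sphere (0 : E) 1) : E) ∈ closedBall (0 : E) 1 :=
        mem_closedBall_zero_iff.2 hv.le
      have h2 := (hfF' _ hvK).trans_le (min_le_right _ _)
      have h3 : d ζ - f (a (Nat.unpair k).1) = (d ζ - F' (a (Nat.unpair k).1)) -
          (f (a (Nat.unpair k).1) - F' (a (Nat.unpair k).1)) := by abel
      rw [h3]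
      refine (norm_sub_le _ _).trans_lt ?_
      linarith) F hF ε hε
  refine ⟨f, hfn, ?_, ?_, hfF⟩
  · intro x hx y hy hxy
    by_contra hne'
    have hpos : 0 < ‖x - y‖ := norm_pos_iff.2 (sub_ne_zero.2 hne')
    obtain ⟨k, hk⟩ := exists_nat_one_div_lt hpos
    exact (hP k).1 x hx y hy hk.le hxy
  · intro v hv ε' hε'
    have hvK : v ∈ closedBall (0 : E) 1 := sphere_subset_closedBall hv
    have hcv : ContinuousWithinAt f (closedBall (0 : E) 1) v := hfn.1 v hvK
    rw [Metric.continuousWithinAt_iff] at hcv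
    obtain ⟨δ, hδ, hcl⟩ := hcv (ε' / 2) (by linarith)
    obtain ⟨i, hi⟩ := ha.exists_dist_lt (⟨v, hv⟩ : sphere (0 : E) 1) hδ
    obtain ⟨m, hm⟩ := exists_nat_one_div_lt (show 0 < ε' / 2 by linarith)
    obtain ⟨d, hd, hdv⟩ := (hP (Nat.pair i m)).2
    rw [Nat.unpair_pair] at hdv
    refine ⟨d, hd, fun ζ hζ => ?_⟩
    have h1 := hdv ζ hζ
    have haK : ((a i : sphere (0 : E) 1) : E) ∈ closedBall (0 : E) 1 :=
      sphere_subset_closedBall (a i).2
    have h2 : dist (f (a i)) (f v) < ε' / 2 := by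
      apply hcl haK
      rw [dist_comm]
      exact hi
    rw [dist_eq_norm] at h2
    have h3 : d ζ - f v = (d ζ - f (a i)) + (f (a i) - f v) := by abel
    rw [h3]
    refine (norm_add_le _ _).trans_lt ?_
    have h4 : ‖d ζ - f (a i)‖ < 1 / ((m : ℝ) + 1) := h1
    linarith

end Pool.Agent.H6.FB
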