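import Pool.Agent.H6.FB.Stmts

/-!
# Module STE: one step
-/

set_option autoImplicit false

open Metric Set Filter Topology

namespace Pool.Agent.H6.FB

/-- uniform continuity near the closed ball -/
theorem ste_unif {E : Type} [NormedAddCommGroup E] [InnerProductSpace ℂ E]
    [FiniteDimensional ℂ E] {F : E → E} {U : Set E} (hU : IsOpen U)
    (hKU : closedBall (0 : E) 1 ⊆ U) (hF : ContinuousOn F U) {ε : ℝ} (hε : 0 < ε) :
    ∃ δ > 0, ∀ z ∈ closedBall (0 : E) 1, ∀ w : E, ‖w - z‖ < δ → w ∈ U ∧ ‖F w - F z‖ < ε := by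
  have := FiniteDimensional.proper ℂ E
  have hK : IsCompact (closedBall (0 : E) 1) := isCompact_closedBall 0 1
  obtain ⟨r, hr, hrU⟩ := hK.exists_cthickening_subset_open hU hKU
  have hK' : IsCompact (cthickening r (closedBall (0 : E) 1)) := hK.cthickening
  have huc := hK'.uniformContinuousOn_of_continuous (hF.mono hrU)
  rw [Metric.uniformContinuousOn_iff] at huc
  obtain ⟨δ, hδ, h⟩ := huc ε hε
  refine ⟨min δ r, lt_min hδ hr, fun z hz w hw => ?_⟩
  have hz' : z ∈ cthickening r (closedBall (0 : E) 1) := self_subset_cthickening _ hz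
  have hw' : w ∈ cthickening r (closedBall (0 : E) 1) := by
    apply mem_cthickening_of_dist_le w z r _ hz
    rw [dist_eq_norm]
    exact (hw.trans_le (min_le_right _ _)).le
  refine ⟨hrU hw', ?_⟩
  have := h w hw' z hz' (by rw [dist_eq_norm]; exact hw.trans_le (min_le_left _ _))
  rwa [dist_eq_norm] at this

theorem ste_thm (hLCZ : LCZStmt) : STEStmt := by
  intro E _ _ _ hdim F hF v hv ε hε
  obtain ⟨U, hU, hKU, hFd, hFi⟩ := hF
  obtain ⟨δ, hδ, hun⟩ := ste_unif hU hKU hFd.continuousOn (show 0 < ε / 3 by linarith)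
  obtain ⟨h, ⟨Uh, hUh, hKUh, hhd, hhi⟩, hclose, p, q, hpq1, hpq2, hpq3⟩ :=
    hLCZ E hdim v hv δ hδ
  have hvK : v ∈ closedBall (0 : E) 1 := by
    rw [mem_closedBall_zero_iff, hv]
  have hV : IsOpen (Uh ∩ h ⁻¹' U) := hhd.continuousOn.isOpen_inter_preimage hUh hU
  have hmaps : MapsTo h (Uh ∩ h ⁻¹' U) U := fun z hz => hz.2
  have hUp : ∀ ζ ∈ closedBall (0 : ℂ) 1, p + ζ • q ∈ U := fun ζ hζ =>
    (hun v hvK _ (hpq1 ζ hζ)).1
  have hhU : ∀ z ∈ closedBall (0 : E) 1, h z ∈ U := fun z hz => (hun z hz _ (hclose z hz)).1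
  have haff : Differentiable ℂ (fun ζ : ℂ => p + ζ • q) :=
    (differentiable_const p).add (differentiable_id.smul_const q)
  refine ⟨F ∘ h, ⟨Uh ∩ h ⁻¹' U, hV, fun z hz => ⟨hKUh hz, hhU z hz⟩,
    hFd.comp (hhd.mono inter_subset_left) hmaps, hFi.comp (hhi.mono inter_subset_left) hmaps⟩,
    fun z hz => ?_, fun ζ => F (p + ζ • q), ⟨?_, ?_, ?_, ?_⟩, fun ζ hζ => ?_⟩
  · have := (hun z hz _ (hclose z hz)).2
    exact this.trans (by linarith)
  · exact hFd.continuousOn.comp haff.continuous.continuousOn hUp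
  · exact hFd.comp haff.differentiableOn fun ζ hζ => hUp ζ (ball_subset_closedBall hζ)
  · intro ζ hζ
    obtain ⟨w, hw, hw'⟩ := hpq2 ζ hζ
    exact ⟨w, hw, by rw [Function.comp_apply, hw']⟩
  · obtain ⟨ζ, hζ, hnot⟩ := hpq3
    refine ⟨ζ, hζ, ?_⟩
    rintro ⟨z, hz, hz'⟩
    apply hnot
    refine ⟨z, hz, ?_⟩
    exact hFi (hhU z hz) (hUp ζ hζ) hz'
  · have h1 := (hun v hvK _ (hpq1 ζ hζ)).2
    have h2 := (hun v hvK _ (hclose v hvK)).2
    have h3 : F (p + ζ • q) - (F ∘ h) v = (F (p + ζ • q) - F v) - (F (h v) - F v) := by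
      rw [Function.comp_apply]
      abel
    rw [h3]
    refine (norm_sub_le _ _).trans_lt ?_
    linarith

end Pool.Agent.H6.FB
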